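import Pool.Agent.Helper17.OD.AsmAll

/-!
# MP_064283_lc: full (negative) answer to Q1

The definitions are in `Pool/Agent/Helper17/OD/Statement.lean` (formulas and `IsZFC`:
`Pool/Agent/Helper97/Ku/BSet.lean`), the paper proof is in `Pool/Agent/Helper17/OD/PAPER.md`.
-/

namespace Pool.Agent.Results.MP_064283_lc.NoExtension

open Pool.Agent.Helper17.OD

/-- There are a countable transitive model `V` of ZFC and an ordinal `α` of `V` such that no transitive
model `W ⊇ V` of ZF with the same ordinals (in particular no forcing extension of `V`, by a set or by a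
class of conditions) has the same `V_α`, has only such OD subsets of `V_α` as are OD in `V`, and
satisfies that every set is ordinal definable from parameters in `V_{α+ω}` (computed in `W`). -/
theorem result : ∃ (V : Set ZFSet.{1}) (α : Ordinal.{1}), V.Countable ∧ TM V ∧ α.toZFSet ∈ V ∧
    ∀ W : Set ZFSet.{1}, TMF W → V ⊆ W → (∀ x ∈ W, x.IsOrdinal → x ∈ V) →
      Lev W α = Lev V α →
      (∀ A : ZFSet.{1}, (∀ y ∈ A, y.rank < α) → ODF W ∅ A → ODF V ∅ A) →
      ¬ ∀ x ∈ W, ODF W (Lev W (α + Ordinal.omega0)) x :=
  All.final

end Pool.Agent.Results.MP_064283_lc.NoExtension
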